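import Pool.Agent.Lib.MP_340332_ag.Final

/-!
# A variety of type B that is not a rigid factor

For every algebraically closed field `K` of characteristic zero there are normal affine
irreducible varieties `Y`, `Z` over `K` such that `Y` is of type B, `Y` and `Z` are not
isomorphic, and `Y × 𝔸¹` and `Z × 𝔸¹` are isomorphic.

`Y` is the surface `(T - 1) y = b ^ 2 (b - 1)`, `T ≠ 0`, with one `A₁` singularity.
-/

open Polynomial Pool.Agent.Lib.MP_340332_ag

universe u

namespace Pool.Agent.Results.MP_340332_ag.TypeBNotRigidFactor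

/-- There is a (normal) affine irreducible variety `Y` of type B over `K`, given by its
coordinate algebra, and a (normal) affine irreducible variety `Z` with `Y ≇ Z` and
`Y × 𝔸¹ ≅ Z × 𝔸¹`. -/
theorem result (K : Type u) [Field K] [IsAlgClosed K] [CharZero K] :
    ∃ (Y Z : Type u) (_ : CommRing Y) (_ : CommRing Z) (_ : Algebra K Y) (_ : Algebra K Z),
      (IsDomain Y ∧ IsIntegrallyClosed Y ∧ Algebra.FiniteType K Y) ∧
      (IsDomain Z ∧ IsIntegrallyClosed Z ∧ Algebra.FiniteType K Z) ∧
      IsTypeB K Y ∧ IsEmpty (Y ≃ₐ[K] Z) ∧ Nonempty (Y[X] ≃ₐ[K] Z[X]) := by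
  classical
  let R := RR K
  let F := FractionRing R
  let x : R := xR K
  have hinj : Function.Injective (algebraMap R F) := IsFractionRing.injective R F
  have hx0 : x ≠ 0 := x_ne K
  have hxF : algebraMap R F x ≠ 0 := by
    rw [Ne, map_eq_zero_iff _ hinj]; exact hx0
  let A := AA x (algebraMap R F x)⁻¹
  let B := AA x ((algebraMap R F x)⁻¹ ^ 2)
  have hAfin : Algebra.FiniteType K A := by
    have h1 : Algebra.FiniteType R A := by
      rw [← Subalgebra.fg_iff_finiteType]
      refine ⟨{bb F x, yy F x}, ?_⟩
      rw [Finset.coe_insert, Finset.coe_singleton]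
      exact (AA_eq_adjoin hxF).symm
    have h2 : Algebra.FiniteType K R := inferInstance
    exact Algebra.FiniteType.trans h2 h1
  let e : A[X] ≃ₐ[K] B[X] := (theCylIso hxF).restrictScalars K
  have hBfin : Algebra.FiniteType K B := by
    have h1 : Algebra.FiniteType K A[X] := Algebra.FiniteType.trans hAfin inferInstance
    let f : A[X] →ₐ[K] B := ((aeval (0 : B) : B[X] →ₐ[B] B).restrictScalars K).comp
      (e : A[X] →ₐ[K] B[X])
    have hf : Function.Surjective f := by
      intro b
      refine ⟨e.symm (C b), ?_⟩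
      simp [f]
    exact Algebra.FiniteType.of_surjective f hf
  refine ⟨A, B, inferInstance, inferInstance, inferInstance, inferInstance,
    ⟨inferInstance, normal_AA (x_prime K) _, hAfin⟩,
    ⟨inferInstance, normal_AA (x_prime K) _, hBfin⟩, ?_, ⟨fun φ => ?_⟩, ⟨e⟩⟩
  · exact isTypeB (surfData hx0 hxF (rho K) (rho_x K) (rho_ker K))
  · refine not_iso (K := K) (F := F) (adjoin_units K) hx0 (x_prime K).not_isUnit _ rfl
      (φ : A ≃+* B) ?_
    intro c
    have h1 : algebraMap R A (algebraMap K R c) = algebraMap K A c :=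
      (IsScalarTower.algebraMap_apply K R A c).symm
    have h2 : algebraMap R B (algebraMap K R c) = algebraMap K B c :=
      (IsScalarTower.algebraMap_apply K R B c).symm
    rw [h1, h2]
    exact φ.commutes c

end Pool.Agent.Results.MP_340332_ag.TypeBNotRigidFactor
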